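import Pool.Agent.Lib.MP_757ca2_nt.Main79

/-!
# Almost prime triples for Sun's conjecture on `xy - 1`, `xz - 1`, `yz - 1`
-/

set_option autoImplicit false

namespace Pool.Agent.Results.MP_757ca2_nt.AlmostPrimes

/-- `m` exceeds 1, has at most `C` prime factors (with multiplicity), and `n ≤ p ^ C` for each
of its prime factors `p` -/
def AlmostPrime (C n m : ℕ) : Prop :=
  1 < m ∧ m.primeFactorsList.length ≤ C ∧ ∀ p : ℕ, p.Prime → p ∣ m → n ≤ p ^ C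

open Classical in
theorem result :
    ∃ C : ℕ, 0 < C ∧ ∀ n x : ℕ, C ≤ n →
      (x = 6 ∨ (x = 2 ∧ n % 3 ≠ 1) ∨ (x = 10 ∧ n % 3 ≠ 2)) →
      (n : ℝ) / (C * (Real.log n) ^ 4) ≤
        (((Finset.range n ×ˢ Finset.range n).filter (fun w : ℕ × ℕ =>
          0 < w.1 ∧ 0 < w.2 ∧ x + w.1 + w.2 = n ∧ AlmostPrime C n (x * w.1 - 1) ∧
            AlmostPrime C n (x * w.2 - 1) ∧ AlmostPrime C n (w.1 * w.2 - 1))).card : ℝ) :=
  Pool.Agent.Lib.MP_757ca2_nt.many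

end Pool.Agent.Results.MP_757ca2_nt.AlmostPrimes
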